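import Mathlib

/-!
# Representability of a q-matroid is not implied by representability of its projectivization

For every finite field `F` and every finite extension `K` of `F` of degree `m`, the uniform
q-matroid of rank one on `F ^ (m + 1)` is not `K`-representable, while its projectivization matroid
(all points are parallel, no point is a loop) is `K`-representable.
-/

set_option autoImplicit false

namespace Pool.Agent.Results.MP_4d2e3d_co.RankOneCounterexample

open Module

/-- A q-matroid on the finite-dimensional vector space `E` over the field `F`: a rank function on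
the subspaces of `E`. -/
structure QMatroid (F E : Type) [Field F] [AddCommGroup E] [Module F E] where
  /-- the rank function -/
  rk : Submodule F E → ℕ
  rk_le : ∀ V, rk V ≤ finrank F V
  rk_mono : ∀ U V, U ≤ V → rk U ≤ rk V
  rk_submodular : ∀ U V, rk (U ⊔ V) + rk (U ⊓ V) ≤ rk U + rk V

section

variable {F E : Type} [Field F] [AddCommGroup E] [Module F E]

/-- The rank function `r(A) = ρ(⟨A⟩)` of the projectivization matroid of `M`, for a set `A` of
one-dimensional subspaces of `E` (points of the projective space of `E`). -/
def QMatroid.projRank (M : QMatroid F E) (A : Set (Projectivization F E)) : ℕ :=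
  M.rk (⨆ a ∈ A, a.submodule)

/-- The projectivization matroid of `M` is `K`-representable: there is a matrix over `K`, with
columns indexed by the one-dimensional subspaces of `E`, such that for every set `A` of columns the
rank of `A` in the projectivization matroid is the `K`-rank of the columns in `A`. -/
def QMatroid.ProjRepresentable (M : QMatroid F E) (K : Type) [Field K] : Prop :=
  ∃ (k : ℕ) (G : Matrix (Fin k) (Projectivization F E) K),
    ∀ A : Set (Projectivization F E),
      M.projRank A = finrank K (Submodule.span K ((fun a => G.transpose a) '' A))

/-- The q-matroid `M` is `K`-representable: there are a matrix `G` with `n` columns over the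
extension field `K` of `F` and an `F`-linear bijection `φ` from `E` to `F ^ n` such that the rank of
each subspace `V` of `E` is the `K`-rank of `G Y` for every matrix `Y` over `F` with column space
`φ V`. -/
def QMatroid.Representable (M : QMatroid F E) (K : Type) [Field K] [Algebra F K] : Prop :=
  ∃ (k n : ℕ) (G : Matrix (Fin k) (Fin n) K) (φ : E ≃ₗ[F] (Fin n → F)),
    ∀ (V : Submodule F E) (l : ℕ) (Y : Matrix (Fin n) (Fin l) F),
      Submodule.span F (Set.range Y.transpose) = V.map (φ : E →ₗ[F] (Fin n → F)) →
        M.rk V = (G * Y.map (algebraMap F K)).rank

end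

/-- the uniform q-matroid of rank one -/
noncomputable def uniformOne (F E : Type) [Field F] [AddCommGroup E] [Module F E]
    [FiniteDimensional F E] : QMatroid F E where
  rk V := min 1 (finrank F V)
  rk_le V := min_le_right _ _
  rk_mono U V h := min_le_min le_rfl (Submodule.finrank_mono h)
  rk_submodular U V := by
    have h1 := Submodule.finrank_sup_add_finrank_inf_eq U V
    have h2 : finrank F (U ⊓ V : Submodule F E) ≤ finrank F U := Submodule.finrank_mono inf_le_left
    have h3 : finrank F (U ⊓ V : Submodule F E) ≤ finrank F V := Submodule.finrank_mono inf_le_right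
    omega

variable {F : Type} [Field F]

theorem proj_representable (E : Type) [AddCommGroup E] [Module F E] [FiniteDimensional F E]
    (K : Type) [Field K] : (uniformOne F E).ProjRepresentable K := by
  refine ⟨1, Matrix.of (fun _ _ => 1), fun A => ?_⟩
  show min 1 (finrank F (⨆ a ∈ A, a.submodule : Submodule F E)) = _
  rcases A.eq_empty_or_nonempty with hA | ⟨a, ha⟩
  · have h1 : (⨆ a ∈ A, a.submodule : Submodule F E) = ⊥ := by
      rw [hA]
      exact iSup₂_eq_bot.2 fun a ha => absurd ha (Set.notMem_empty a)
    rw [h1, finrank_bot, hA, Set.image_empty, Submodule.span_empty, finrank_bot]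
    rfl
  · have h1 : 0 < finrank F (⨆ a ∈ A, a.submodule : Submodule F E) := by
      have h2 : a.submodule ≤ ⨆ a ∈ A, a.submodule := le_iSup₂_of_le a ha le_rfl
      have h3 := Submodule.finrank_mono h2
      rw [Projectivization.finrank_submodule] at h3
      omega
    have h4 : ((fun b => (Matrix.of (fun (_ : Fin 1) (_ : Projectivization F E) =>
        (1 : K))).transpose b) '' A) = {fun _ => (1 : K)} := by
      apply Set.Subset.antisymm
      · rintro _ ⟨b, -, rfl⟩
        rfl
      · rintro _ rfl
        exact ⟨a, ha, rfl⟩
    rw [h4, finrank_span_singleton]
    · omega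
    · intro h
      exact one_ne_zero (congrFun h 0)

theorem not_representable (K : Type) [Field K] [Algebra F K] [FiniteDimensional F K]
    (E : Type) [AddCommGroup E] [Module F E] [FiniteDimensional F E]
    (hE : finrank F K < finrank F E) : ¬ (uniformOne F E).Representable K := by
  rintro ⟨k, n, G, φ, h⟩
  have hn : finrank F E = n := by
    rw [φ.finrank_eq, finrank_fintype_fun_eq_card, Fintype.card_fin]
  -- the whole space: `G` has rank one
  have h1 : G.rank = 1 := by
    have h2 := h ⊤ n 1 (by
      have h3 : Submodule.map (φ : E →ₗ[F] (Fin n → F)) ⊤ = ⊤ := by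
        rw [Submodule.map_top]
        exact LinearEquiv.range φ
      rw [h3, Matrix.transpose_one]
      have h4 : Set.range (1 : Matrix (Fin n) (Fin n) F) = Set.range (Pi.basisFun F (Fin n)) := by
        congr 1
        funext i j
        rw [Matrix.one_apply, Pi.basisFun_apply, Pi.single_apply]
        simp [eq_comm]
      rw [h4]
      exact (Pi.basisFun F (Fin n)).span_eq)
    have h5 : (1 : Matrix (Fin n) (Fin n) F).map (algebraMap F K) = 1 := by
      ext i j
      simp [Matrix.one_apply, Matrix.map_apply, apply_ite]
    rw [h5, Matrix.mul_one] at h2
    rw [← h2]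
    show min 1 (finrank F (⊤ : Submodule F E)) = 1
    rw [finrank_top]
    omega
  -- the `F`-linear map from `E` to the column space of `G`
  have h2 : finrank K (LinearMap.range G.mulVecLin) = 1 := h1
  let L := LinearMap.range G.mulVecLin
  have h3 : finrank F L = finrank F K := by
    have := Module.finrank_mul_finrank F K L
    rw [h2, mul_one] at this
    exact this.symm
  let ψ0 : (Fin n → F) →ₗ[F] (Fin n → K) := (Algebra.linearMap F K).compLeft (Fin n)
  let ψ : E →ₗ[F] L := (G.mulVecLin.rangeRestrict.restrictScalars F) ∘ₗ ψ0 ∘ₗ (φ : E →ₗ[F] _)
  have h4 : ¬ Function.Injective ψ := by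
    intro hinj
    have : FiniteDimensional F L := by
      have : FiniteDimensional K L := inferInstance
      exact Module.Finite.trans K L
    have := LinearMap.finrank_le_finrank_of_injective hinj
    omega
  rw [← LinearMap.ker_eq_bot, Submodule.eq_bot_iff] at h4
  push Not at h4
  obtain ⟨x, hx, hx0⟩ := h4
  have h5 := h (Submodule.span F {x}) 1 (Matrix.of fun i _ => φ x i) (by
    rw [Submodule.map_span, Set.image_singleton]
    congr 1
    apply Set.Subset.antisymm
    · rintro _ ⟨b, rfl⟩
      rfl
    · rintro _ rfl
      exact ⟨0, rfl⟩)
  have h6 : G * (Matrix.of fun i (_ : Fin 1) => φ x i).map (algebraMap F K) = 0 := by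
    ext i j
    have h7 : G.mulVec (fun i => algebraMap F K (φ x i)) = 0 := by
      have h8 : ψ x = 0 := hx
      exact congrArg Subtype.val h8
    exact congrFun h7 i
  rw [h6, Matrix.rank_zero] at h5
  have h7 : (uniformOne F E).rk (Submodule.span F {x}) = min 1 (finrank F (Submodule.span F {x})) :=
    rfl
  rw [h7, finrank_span_singleton hx0] at h5
  omega

/-- **Representability of `P(M)` does not imply representability of `M`.** For every finite field
`F` and every finite extension field `K` of `F` there is a q-matroid on a vector space over `F` whose
projectivization matroid is `K`-representable but which is not `K`-representable. -/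
theorem result (F : Type) [Field F] [Finite F] (K : Type) [Field K] [Algebra F K]
    [FiniteDimensional F K] :
    ∃ M : QMatroid F (Fin (finrank F K + 1) → F), M.ProjRepresentable K ∧ ¬ M.Representable K :=
  ⟨uniformOne F _, proj_representable _ K, not_representable K _ (by
    rw [finrank_fintype_fun_eq_card, Fintype.card_fin]
    omega)⟩

end Pool.Agent.Results.MP_4d2e3d_co.RankOneCounterexample
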