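import Mathlib

/-!
# A q-matroid which is representable over no field, with representable projectivization

For every finite field `F` there is a q-matroid `M` of rank two on `F ^ 4` which is not
representable over any extension field of `F`, while its projectivization matroid is representable
over every finite extension of `F` of degree at least four.

The rank-one lines of `M` are four of the `q ^ 2 + 1` lines of a Desarguesian spread. In a
representation these four lines force all the lines of the spread to have rank one.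
-/

set_option autoImplicit false

namespace Pool.Agent.Results.MP_4d2e3d_co.SpreadCounterexample

open Module

/-- A q-matroid on the finite-dimensional vector space `E` over the field `F`: a rank function on
the subspaces of `E`. -/
structure QMatroid (F E : Type) [Field F] [AddCommGroup E] [Module F E] where
  /-- the rank function -/
  rk : Submodule F E → ℕ
  rk_le : ∀ V, rk V ≤ finrank F V
  rk_mono : ∀ U V, U ≤ V → rk U ≤ rk V
  rk_submodular : ∀ U V, rk (U ⊔ V) + rk (U ⊓ V) ≤ rk U + rk V

section

variable {F E : Type} [Field F] [AddCommGroup E] [Module F E]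

/-- The rank function `r(A) = ρ(⟨A⟩)` of the projectivization matroid of `M`, for a set `A` of
one-dimensional subspaces of `E` (points of the projective space of `E`). -/
def QMatroid.projRank (M : QMatroid F E) (A : Set (Projectivization F E)) : ℕ :=
  M.rk (⨆ a ∈ A, a.submodule)

/-- The projectivization matroid of `M` is `K`-representable: there is a matrix over `K`, with
columns indexed by the one-dimensional subspaces of `E`, such that for every set `A` of columns the
rank of `A` in the projectivization matroid is the `K`-rank of the columns in `A`. -/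
def QMatroid.ProjRepresentable (M : QMatroid F E) (K : Type) [Field K] : Prop :=
  ∃ (k : ℕ) (G : Matrix (Fin k) (Projectivization F E) K),
    ∀ A : Set (Projectivization F E),
      M.projRank A = finrank K (Submodule.span K ((fun a => G.transpose a) '' A))

/-- The q-matroid `M` is `K`-representable: there are a matrix `G` with `n` columns over the
extension field `K` of `F` and an `F`-linear bijection `φ` from `E` to `F ^ n` such that the rank of
each subspace `V` of `E` is the `K`-rank of `G Y` for every matrix `Y` over `F` with column space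
`φ V`. -/
def QMatroid.Representable (M : QMatroid F E) (K : Type) [Field K] [Algebra F K] : Prop :=
  ∃ (k n : ℕ) (G : Matrix (Fin k) (Fin n) K) (φ : E ≃ₗ[F] (Fin n → F)),
    ∀ (V : Submodule F E) (l : ℕ) (Y : Matrix (Fin n) (Fin l) F),
      Submodule.span F (Set.range Y.transpose) = V.map (φ : E →ₗ[F] (Fin n → F)) →
        M.rk V = (G * Y.map (algebraMap F K)).rank

/-- In a representation the rank of the span of two vectors is the rank of their images. -/
theorem rep_pair (M : QMatroid F E) (K : Type) [Field K] [Algebra F K] (h : M.Representable K) :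
    ∃ (k : ℕ) (ψ : E →ₗ[F] (Fin k → K)),
      ∀ x y, M.rk (Submodule.span F {x, y}) = finrank K (Submodule.span K {ψ x, ψ y}) := by
  obtain ⟨k, n, G, φ, h⟩ := h
  refine ⟨k, (G.mulVecLin.restrictScalars F) ∘ₗ ((Algebra.linearMap F K).compLeft (Fin n)) ∘ₗ
    (φ : E →ₗ[F] _), fun x y => ?_⟩
  have h5 := h (Submodule.span F {x, y}) 2 (Matrix.of fun i j => φ (![x, y] j) i) (by
    rw [Submodule.map_span, Set.image_pair]
    congr 1
    apply Set.Subset.antisymm
    · rintro _ ⟨b, rfl⟩
      fin_cases b
      · exact Or.inl rfl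
      · exact Or.inr rfl
    · rintro _ (rfl | rfl)
      · exact ⟨0, rfl⟩
      · exact ⟨1, rfl⟩)
  rw [h5, Matrix.rank_eq_finrank_span_cols]
  have h6 : Set.range (G * (Matrix.of fun i j => φ (![x, y] j) i).map (algebraMap F K)).col =
      {((G.mulVecLin.restrictScalars F) ∘ₗ ((Algebra.linearMap F K).compLeft (Fin n)) ∘ₗ
        (φ : E →ₗ[F] _)) x, ((G.mulVecLin.restrictScalars F) ∘ₗ
          ((Algebra.linearMap F K).compLeft (Fin n)) ∘ₗ (φ : E →ₗ[F] _)) y} := by
    apply Set.Subset.antisymm
    · rintro _ ⟨b, rfl⟩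
      fin_cases b
      · exact Or.inl rfl
      · exact Or.inr rfl
    · rintro _ (rfl | rfl)
      · exact ⟨0, rfl⟩
      · exact ⟨1, rfl⟩
  rw [h6]

open Classical in
/-- the rank-two q-matroid with prescribed nonloop rank-one subspaces -/
noncomputable def spreadMatroid [FiniteDimensional F E] (S : Set (Submodule F E))
    (hS : ∀ A ∈ S, ∀ B ∈ S, A ⊓ B ≠ ⊥ → A = B) : QMatroid F E where
  rk V := if V = ⊥ then 0 else if finrank F V = 1 ∨ ∃ A ∈ S, V ≤ A then 1 else 2
  rk_le V := by
    split_ifs with h1 h2
    · exact Nat.zero_le _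
    · exact Submodule.one_le_finrank_iff.2 h1
    · have h3 := Submodule.one_le_finrank_iff.2 h1
      have h4 : finrank F V ≠ 1 := fun h => h2 (Or.inl h)
      omega
  rk_mono U V h := by
    by_cases hU : U = ⊥
    · rw [if_pos hU]
      exact Nat.zero_le _
    · have hV : V ≠ ⊥ := fun hV => hU (le_bot_iff.1 (hV ▸ h))
      rw [if_neg hU, if_neg hV]
      by_cases h2 : finrank F V = 1 ∨ ∃ A ∈ S, V ≤ A
      · have h3 : finrank F U = 1 ∨ ∃ A ∈ S, U ≤ A := by
          rcases h2 with h2 | ⟨A, hA, h2⟩
          · left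
            have h4 := Submodule.finrank_mono h
            have h5 := Submodule.one_le_finrank_iff.2 hU
            omega
          · exact Or.inr ⟨A, hA, h.trans h2⟩
        rw [if_pos h2, if_pos h3]
      · rw [if_neg h2]
        split_ifs <;> omega
  rk_submodular U V := by
    have key : ∀ U V : Submodule F E, U ≠ ⊥ → V ≠ ⊥ → U ⊓ V ≠ ⊥ →
        (finrank F U = 1 ∨ ∃ A ∈ S, U ≤ A) → (finrank F V = 1 ∨ ∃ A ∈ S, V ≤ A) →
        (finrank F (U ⊔ V : Submodule F E) = 1 ∨ ∃ A ∈ S, U ⊔ V ≤ A) := by
      intro U V hU hV hUV h1 h2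
      have h0 := Submodule.one_le_finrank_iff.2 hUV
      rcases h1 with h1 | ⟨A, hA, h1⟩
      · have h3 : U ⊓ V = U := Submodule.eq_of_le_of_finrank_le inf_le_left (by omega)
        rwa [sup_eq_right.2 (inf_eq_left.1 h3)]
      · rcases h2 with h2 | ⟨B, hB, h2⟩
        · have h3 : U ⊓ V = V := Submodule.eq_of_le_of_finrank_le inf_le_right (by omega)
          rw [sup_eq_left.2 (inf_eq_right.1 h3)]
          exact Or.inr ⟨A, hA, h1⟩
        · have h3 : A = B := hS A hA B hB fun h =>
            hUV (le_bot_iff.1 (h ▸ inf_le_inf h1 h2))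
          exact Or.inr ⟨A, hA, sup_le h1 (h3 ▸ h2)⟩
    by_cases hU : U = ⊥
    · rw [hU, bot_sup_eq, bot_inf_eq, add_comm]
    by_cases hV : V = ⊥
    · rw [hV, sup_bot_eq, inf_bot_eq]
    have hUV : U ⊔ V ≠ ⊥ := fun h => hU (le_bot_iff.1 (h ▸ le_sup_left))
    rw [if_neg hU, if_neg hV, if_neg hUV]
    by_cases hI : U ⊓ V = ⊥
    · rw [if_pos hI]
      split_ifs <;> omega
    · rw [if_neg hI]
      have k1 := key U V hU hV hI
      have k2 : (finrank F U = 1 ∨ ∃ A ∈ S, U ≤ A) →
          (finrank F (U ⊓ V : Submodule F E) = 1 ∨ ∃ A ∈ S, U ⊓ V ≤ A) := by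
        rintro (h | ⟨A, hA, h⟩)
        · left
          have h4 := Submodule.finrank_mono (inf_le_left : U ⊓ V ≤ U)
          have h5 := Submodule.one_le_finrank_iff.2 hI
          omega
        · exact Or.inr ⟨A, hA, inf_le_left.trans h⟩
      have k3 : (finrank F V = 1 ∨ ∃ A ∈ S, V ≤ A) →
          (finrank F (U ⊓ V : Submodule F E) = 1 ∨ ∃ A ∈ S, U ⊓ V ≤ A) := by
        rintro (h | ⟨A, hA, h⟩)
        · left
          have h4 := Submodule.finrank_mono (inf_le_right : U ⊓ V ≤ V)
          have h5 := Submodule.one_le_finrank_iff.2 hI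
          omega
        · exact Or.inr ⟨A, hA, inf_le_right.trans h⟩
      by_cases c1 : finrank F U = 1 ∨ ∃ A ∈ S, U ≤ A
      · by_cases c2 : finrank F V = 1 ∨ ∃ A ∈ S, V ≤ A
        · rw [if_pos c1, if_pos c2, if_pos (k1 c1 c2), if_pos (k2 c1)]
        · rw [if_pos c1, if_neg c2, if_pos (k2 c1)]
          split_ifs <;> omega
      · by_cases c2 : finrank F V = 1 ∨ ∃ A ∈ S, V ≤ A
        · rw [if_neg c1, if_pos c2, if_pos (k3 c2)]
          split_ifs <;> omega
        · rw [if_neg c1, if_neg c2]
          split_ifs <;> omega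

/-- two points lie in one parallel class of the projectivization of the spread q-matroid -/
theorem spread_proj [FiniteDimensional F E] (S : Set (Submodule F E))
    (hS : ∀ A ∈ S, ∀ B ∈ S, A ⊓ B ≠ ⊥ → A = B) (K : Type) [Field K]
    (c : Projectivization F E → K)
    (hc : ∀ a b, c a = c b ↔ a = b ∨ ∃ A ∈ S, a.submodule ≤ A ∧ b.submodule ≤ A) :
    (spreadMatroid S hS).ProjRepresentable K := by
  classical
  refine ⟨2, Matrix.of (fun i a => ![1, c a] i), fun A => ?_⟩
  have hbot : ∀ a : Projectivization F E, a.submodule ≠ ⊥ := fun a h => by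
    have := Projectivization.finrank_submodule a
    rw [h, finrank_bot] at this
    omega
  show (if (⨆ a ∈ A, a.submodule) = ⊥ then 0 else if
    finrank F (⨆ a ∈ A, a.submodule : Submodule F E) = 1 ∨
      ∃ B ∈ S, (⨆ a ∈ A, a.submodule) ≤ B then 1 else 2) = _
  have hcol : ((fun a => (Matrix.of (fun i (a : Projectivization F E) =>
      ![1, c a] i)).transpose a) '' A) = (fun a => ![1, c a]) '' A := rfl
  rw [hcol]
  rcases A.eq_empty_or_nonempty with hA | ⟨a, ha⟩
  · have h1 : (⨆ a ∈ A, a.submodule : Submodule F E) = ⊥ := by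
      rw [hA]
      exact iSup₂_eq_bot.2 fun a ha => absurd ha (Set.notMem_empty a)
    rw [if_pos h1, hA, Set.image_empty, Submodule.span_empty, finrank_bot]
  · have hle : ∀ b ∈ A, b.submodule ≤ ⨆ a ∈ A, a.submodule := fun b hb =>
      le_iSup₂_of_le b hb le_rfl
    have h1 : (⨆ a ∈ A, a.submodule : Submodule F E) ≠ ⊥ := fun h =>
      hbot a (le_bot_iff.1 (h ▸ hle a ha))
    rw [if_neg h1]
    by_cases hall : ∀ b ∈ A, c b = c a
    · have h2 : (fun a => ![1, c a]) '' A = {![1, c a]} := by
        apply Set.Subset.antisymm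
        · rintro _ ⟨b, hb, rfl⟩
          show ![1, c b] = ![1, c a]
          rw [hall b hb]
        · rintro _ rfl
          exact ⟨a, ha, rfl⟩
      rw [h2, finrank_span_singleton (fun h => one_ne_zero (congrFun h 0))]
      apply if_pos
      by_cases hs : ∃ b ∈ A, b ≠ a
      · obtain ⟨b, hb, hba⟩ := hs
        obtain h3 | ⟨B, hB, h3, h4⟩ := (hc b a).1 (hall b hb)
        · exact absurd h3 hba
        · right
          refine ⟨B, hB, iSup₂_le fun b' hb' => ?_⟩
          obtain h5 | ⟨B', hB', h5, h6⟩ := (hc b' a).1 (hall b' hb')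
          · rw [h5]
            exact h4
          · have h7 : B' = B := hS B' hB' B hB fun h => hbot a (le_bot_iff.1 (h ▸ le_inf h6 h4))
            rw [← h7]
            exact h5
      · left
        push Not at hs
        have h3 : (⨆ a ∈ A, a.submodule : Submodule F E) = a.submodule :=
          le_antisymm (iSup₂_le fun b hb => by rw [hs b hb]) (hle a ha)
        rw [h3, Projectivization.finrank_submodule]
    · push Not at hall
      obtain ⟨b, hb, hba⟩ := hall
      have h2 : ¬ (finrank F (⨆ a ∈ A, a.submodule : Submodule F E) = 1 ∨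
          ∃ B ∈ S, (⨆ a ∈ A, a.submodule) ≤ B) := by
        rintro (h | ⟨B, hB, h⟩)
        · have h3 : a.submodule = ⨆ a ∈ A, a.submodule :=
            Submodule.eq_of_le_of_finrank_le (hle a ha) (by
              rw [h, Projectivization.finrank_submodule])
          have h4 : b.submodule = ⨆ a ∈ A, a.submodule :=
            Submodule.eq_of_le_of_finrank_le (hle b hb) (by
              rw [h, Projectivization.finrank_submodule])
          exact hba (congrArg c (Projectivization.submodule_injective (h4.trans h3.symm)))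
        · exact hba ((hc b a).2 (Or.inr ⟨B, hB, (hle b hb).trans h, (hle a ha).trans h⟩))
      rw [if_neg h2]
      have h3 : Submodule.span K ((fun a => ![1, c a]) '' A) = ⊤ := by
        rw [eq_top_iff]
        have ma : ![1, c a] ∈ Submodule.span K ((fun a => ![1, c a]) '' A) :=
          Submodule.subset_span ⟨a, ha, rfl⟩
        have mb : ![1, c b] ∈ Submodule.span K ((fun a => ![1, c a]) '' A) :=
          Submodule.subset_span ⟨b, hb, rfl⟩
        intro x _
        have hne : c b - c a ≠ 0 := sub_ne_zero.2 hba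
        have hx : x = ((x 1 - x 0 * c a) / (c b - c a)) • ![1, c b] +
            (x 0 - (x 1 - x 0 * c a) / (c b - c a)) • ![1, c a] := by
          ext i
          fin_cases i
          · simp
          · simp
            field_simp
            ring
        rw [hx]
        exact Submodule.add_mem _ (Submodule.smul_mem _ _ mb) (Submodule.smul_mem _ _ ma)
      rw [h3, finrank_top, finrank_fintype_fun_eq_card, Fintype.card_fin]

end

section spread

variable {F L E : Type} [Field F] [Field L] [Algebra F L] [AddCommGroup E] [Module F E]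

/-- the line `y = c x` of the regular spread of `L × L` -/
def line (e : E ≃ₗ[F] L × L) (c : L) : Submodule F E where
  carrier := {x | (e x).2 = c * (e x).1}
  add_mem' := by
    intro x y hx hy
    simp only [Set.mem_ofPred_eq] at hx hy ⊢
    rw [map_add, Prod.snd_add, Prod.fst_add, hx, hy, mul_add]
  zero_mem' := by simp
  smul_mem' := by
    intro r x hx
    simp only [Set.mem_ofPred_eq] at hx ⊢
    rw [map_smul, Prod.smul_snd, Prod.smul_fst, hx, mul_smul_comm]

/-- the line `x = 0` of the regular spread of `L × L` -/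
def lineInf (e : E ≃ₗ[F] L × L) : Submodule F E where
  carrier := {x | (e x).1 = 0}
  add_mem' := by
    intro x y hx hy
    simp only [Set.mem_ofPred_eq] at hx hy ⊢
    rw [map_add, Prod.fst_add, hx, hy, add_zero]
  zero_mem' := by simp
  smul_mem' := by
    intro r x hx
    simp only [Set.mem_ofPred_eq] at hx ⊢
    rw [map_smul, Prod.smul_fst, hx, smul_zero]

theorem mem_line (e : E ≃ₗ[F] L × L) (c : L) (x : E) : x ∈ line e c ↔ (e x).2 = c * (e x).1 :=
  Iff.rfl

theorem mem_lineInf (e : E ≃ₗ[F] L × L) (x : E) : x ∈ lineInf e ↔ (e x).1 = 0 :=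
  Iff.rfl

/-- four lines of the regular spread -/
def four (e : E ≃ₗ[F] L × L) (θ : L) : Set (Submodule F E) :=
  {A | A = lineInf e ∨ A = line e 0 ∨ A = line e 1 ∨ A = line e θ}

theorem line_inj (e : E ≃ₗ[F] L × L) {c d : L} (h : line e c ⊓ line e d ≠ ⊥) :
    line e c = line e d := by
  by_contra hne
  apply h
  rw [Submodule.eq_bot_iff]
  rintro x ⟨h1, h2⟩
  have h1' : (e x).2 = c * (e x).1 := h1
  have h2' : (e x).2 = d * (e x).1 := h2
  have h3 : (c - d) * (e x).1 = 0 := by rw [sub_mul, ← h1', ← h2', sub_self]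
  rcases mul_eq_zero.1 h3 with h4 | h4
  · exact absurd (congrArg (line e) (sub_eq_zero.1 h4)) hne
  · have h5 : (e x).2 = 0 := by rw [h1', h4, mul_zero]
    have h6 : e x = 0 := Prod.ext h4 h5
    exact (map_eq_zero_iff e e.injective).1 h6

theorem line_inf (e : E ≃ₗ[F] L × L) {c : L} : line e c ⊓ lineInf e = ⊥ := by
  rw [Submodule.eq_bot_iff]
  rintro x ⟨h1, h2⟩
  have h1' : (e x).2 = c * (e x).1 := h1
  have h2' : (e x).1 = 0 := h2
  have h5 : (e x).2 = 0 := by rw [h1', h2', mul_zero]
  have h6 : e x = 0 := Prod.ext h2' h5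
  exact (map_eq_zero_iff e e.injective).1 h6

theorem four_disj (e : E ≃ₗ[F] L × L) (θ : L) :
    ∀ A ∈ four e θ, ∀ B ∈ four e θ, A ⊓ B ≠ ⊥ → A = B := by
  have key : ∀ A ∈ four e θ, A = lineInf e ∨ ∃ c, A = line e c := by
    rintro A (h | h | h | h)
    · exact Or.inl h
    · exact Or.inr ⟨_, h⟩
    · exact Or.inr ⟨_, h⟩
    · exact Or.inr ⟨_, h⟩
  intro A hA B hB h
  rcases key A hA with rfl | ⟨c, rfl⟩ <;> rcases key B hB with rfl | ⟨d, rfl⟩
  · rfl
  · exact absurd ((inf_comm _ _).trans (line_inf e)) h
  · exact absurd (line_inf e) h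
  · exact line_inj e h

theorem four_not_rep [FiniteDimensional F E] (e : E ≃ₗ[F] L × L) (θ : L)
    (hθ : ∀ c : F, algebraMap F L c ≠ θ) (K : Type) [Field K] [Algebra F K] :
    ¬ (spreadMatroid (four e θ) (four_disj e θ)).Representable K := by
  classical
  intro hrep
  obtain ⟨k, ψ, h⟩ := rep_pair _ K hrep
  have hrk : ∀ V : Submodule F E, (spreadMatroid (four e θ) (four_disj e θ)).rk V =
      if V = ⊥ then 0 else if finrank F V = 1 ∨ ∃ A ∈ four e θ, V ≤ A then 1 else 2 := by
    intro V
    show (if V = ⊥ then 0 else if finrank F V = 1 ∨ ∃ A ∈ four e θ, V ≤ A then 1 else 2) = _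
    congr
  -- points have rank one
  have R1 : ∀ x, x ≠ 0 → ψ x ≠ 0 := by
    intro x hx h0
    have h1 := h x x
    rw [Set.pair_eq_singleton, Set.pair_eq_singleton, h0] at h1
    rw [hrk, if_neg (fun h => hx (Submodule.span_singleton_eq_bot.1 h)),
      Submodule.span_zero_singleton, finrank_bot] at h1
    split_ifs at h1
  -- lines of the spread have rank one
  have R2 : ∀ A ∈ four e θ, ∀ x ∈ A, ∀ y ∈ A, x ≠ 0 → ∃ t : K, ψ y = t • ψ x := by
    intro A hA x hx y hy hx0
    have h1 := h x y
    have h2 : Submodule.span F {x, y} ≠ ⊥ := by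
      intro h
      rw [Submodule.span_eq_bot] at h
      exact hx0 (h x (Or.inl rfl))
    have h3 : Submodule.span F {x, y} ≤ A := by
      rw [Submodule.span_le]
      rintro _ (rfl | rfl)
      · exact hx
      · exact hy
    rw [hrk, if_neg h2, if_pos (Or.inr ⟨A, hA, h3⟩)] at h1
    have h4 : Submodule.span K {ψ x} ≤ Submodule.span K {ψ x, ψ y} :=
      Submodule.span_mono (by simp)
    have h5 : Submodule.span K {ψ x} = Submodule.span K {ψ x, ψ y} :=
      Submodule.eq_of_le_of_finrank_le h4 (by rw [← h1, finrank_span_singleton (R1 x hx0)])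
    have h6 : ψ y ∈ Submodule.span K {ψ x} := by
      rw [h5]
      exact Submodule.subset_span (by simp)
    obtain ⟨t, ht⟩ := Submodule.mem_span_singleton.1 h6
    exact ⟨t, ht.symm⟩
  -- other lines have rank two
  have R3 : ∀ x y, x ≠ 0 → (∀ c : F, y ≠ c • x) → (∀ A ∈ four e θ, x ∈ A → y ∉ A) →
      ∀ t : K, ψ y ≠ t • ψ x := by
    intro x y hx0 hxy hA t ht
    have h1 := h x y
    have h2 : Submodule.span F {x, y} ≠ ⊥ := by
      intro h
      rw [Submodule.span_eq_bot] at h
      exact hx0 (h x (Or.inl rfl))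
    have h3 : ¬ (finrank F (Submodule.span F {x, y}) = 1 ∨
        ∃ A ∈ four e θ, Submodule.span F {x, y} ≤ A) := by
      rintro (h | ⟨A, hA', h⟩)
      · have h4 : Submodule.span F {x} ≤ Submodule.span F {x, y} :=
          Submodule.span_mono (by simp)
        have h5 : Submodule.span F {x} = Submodule.span F {x, y} :=
          Submodule.eq_of_le_of_finrank_le h4 (by rw [h, finrank_span_singleton hx0])
        have h6 : y ∈ Submodule.span F {x} := by
          rw [h5]
          exact Submodule.subset_span (by simp)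
        obtain ⟨c, hc⟩ := Submodule.mem_span_singleton.1 h6
        exact hxy c hc.symm
      · exact hA A hA' (h (Submodule.subset_span (by simp))) (h (Submodule.subset_span (by simp)))
    rw [hrk, if_neg h2, if_neg h3] at h1
    have h4 : Submodule.span K {ψ x, ψ y} ≤ Submodule.span K {ψ x} := by
      rw [Submodule.span_le]
      rintro _ (rfl | rfl)
      · exact Submodule.mem_span_singleton_self _
      · rw [ht]
        exact Submodule.smul_mem _ _ (Submodule.mem_span_singleton_self _)
    have h5 := Submodule.finrank_mono h4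
    rw [← h1, finrank_span_singleton (R1 x hx0)] at h5
    omega
  have hθ0 : θ ≠ 0 := fun h => hθ 0 (by rw [map_zero, h])
  have hθ1 : θ ≠ 1 := fun h => hθ 1 (by rw [map_one, h])
  have hθ2 : θ + 1 ≠ 0 := fun h => hθ (-1) (by rw [map_neg, map_one]; linear_combination -h)
  -- coordinates
  set Ψ : L × L → (Fin k → K) := fun p => ψ (e.symm p) with hΨ
  have hnz : ∀ p : L × L, p ≠ 0 → e.symm p ≠ 0 := fun p hp h0 =>
    hp ((map_eq_zero_iff e.symm e.symm.injective).1 h0)
  have hadd : ∀ p q, Ψ (p + q) = Ψ p + Ψ q := fun p q => by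
    simp only [hΨ, map_add]
  have ha : ∀ x : L, ∃ a : K, Ψ (x, 0) = a • Ψ (1, 0) := fun x =>
    R2 (line e 0) (Or.inr (Or.inl rfl)) (e.symm (1, 0)) (by rw [mem_line]; simp)
      (e.symm (x, 0)) (by rw [mem_line]; simp) (hnz _ (by simp))
  have hb : ∀ x : L, ∃ a : K, Ψ (0, x) = a • Ψ (0, 1) := fun x =>
    R2 (lineInf e) (Or.inl rfl) (e.symm (0, 1)) (by rw [mem_lineInf]; simp)
      (e.symm (0, x)) (by rw [mem_lineInf]; simp) (hnz _ (by simp))
  choose a ha using ha
  choose b hb using hb
  have hu0 : Ψ (1, 0) ≠ 0 := R1 _ (hnz _ (by simp))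
  have hv0 : Ψ (0, 1) ≠ 0 := R1 _ (hnz _ (by simp))
  have hindep : ∀ s t : K, s • Ψ (1, 0) + t • Ψ (0, 1) = 0 → s = 0 ∧ t = 0 := by
    intro s t hst
    have ht : t = 0 := by
      by_contra ht
      apply R3 (e.symm (1, 0)) (e.symm (0, 1)) (hnz _ (by simp)) ?_ ?_ (-t⁻¹ * s)
      · show Ψ (0, 1) = (-t⁻¹ * s) • Ψ (1, 0)
        have h1 : Ψ (0, 1) = t⁻¹ • (t • Ψ (0, 1)) := by
          rw [smul_smul, inv_mul_cancel₀ ht, one_smul]
        rw [h1, eq_neg_of_add_eq_zero_right hst, smul_neg, smul_smul, neg_mul, neg_smul]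
      · intro c hc
        rw [← map_smul, e.symm.injective.eq_iff] at hc
        have := congrArg Prod.snd hc
        simp at this
      · rintro A (rfl | rfl | rfl | rfl) h1 h2
        · rw [mem_lineInf] at h1
          simp at h1
        · rw [mem_line] at h2
          simp at h2
        · rw [mem_line] at h2
          simp at h2
        · rw [mem_line] at h2
          simp at h2
    refine ⟨?_, ht⟩
    rw [ht, zero_smul, add_zero] at hst
    exact (smul_eq_zero.1 hst).resolve_right hu0
  have hxy : ∀ x y, Ψ (x, y) = a x • Ψ (1, 0) + b y • Ψ (0, 1) := fun x y => by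
    rw [← ha, ← hb, ← hadd]
    simp
  have huniq : ∀ s t s' t' : K, s • Ψ (1, 0) + t • Ψ (0, 1) = s' • Ψ (1, 0) + t' • Ψ (0, 1) →
      s = s' ∧ t = t' := by
    intro s t s' t' h
    have h1 : (s - s') • Ψ (1, 0) + (t - t') • Ψ (0, 1) = 0 := by
      rw [sub_smul, sub_smul]
      rw [← sub_eq_zero] at h
      rw [← h]
      abel
    obtain ⟨h2, h3⟩ := hindep _ _ h1
    exact ⟨sub_eq_zero.1 h2, sub_eq_zero.1 h3⟩
  have ha1 : a 1 = 1 := by
    have h1 := ha 1
    have h2 : (a 1 - 1) • Ψ (1, 0) = 0 := by rw [sub_smul, ← h1, one_smul, sub_self]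
    exact sub_eq_zero.1 ((smul_eq_zero.1 h2).resolve_right hu0)
  have hb1 : b 1 = 1 := by
    have h1 := hb 1
    have h2 : (b 1 - 1) • Ψ (0, 1) = 0 := by rw [sub_smul, ← h1, one_smul, sub_self]
    exact sub_eq_zero.1 ((smul_eq_zero.1 h2).resolve_right hv0)
  have hab : ∀ x, a x = b x := by
    intro x
    obtain ⟨t, ht⟩ := R2 (line e 1) (Or.inr (Or.inr (Or.inl rfl))) (e.symm (1, 1))
      (by rw [mem_line]; simp) (e.symm (x, x)) (by rw [mem_line]; simp) (hnz _ (by simp))
    have ht' : Ψ (x, x) = t • Ψ (1, 1) := ht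
    rw [hxy x x, hxy 1 1, ha1, hb1, smul_add, smul_smul, smul_smul, mul_one] at ht'
    obtain ⟨h1, h2⟩ := huniq _ _ _ _ ht'
    rw [h1, h2]
  have hmul : ∀ x, a (θ * x) = a θ * a x := by
    intro x
    obtain ⟨t, ht⟩ := R2 (line e θ) (Or.inr (Or.inr (Or.inr rfl))) (e.symm (1, θ))
      (by rw [mem_line]; simp) (e.symm (x, θ * x)) (by rw [mem_line]; simp) (hnz _ (by simp))
    have ht' : Ψ (x, θ * x) = t • Ψ (1, θ) := ht
    rw [hxy x (θ * x), hxy 1 θ, ha1, ← hab, ← hab, smul_add, smul_smul, smul_smul, mul_one] at ht'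
    obtain ⟨h1, h2⟩ := huniq _ _ _ _ ht'
    rw [h1, h2, mul_comm]
  have haadd : ∀ x y, a (x + y) = a x + a y := by
    intro x y
    have h1 : Ψ (x + y, 0) = Ψ (x, 0) + Ψ (y, 0) := by
      rw [← hadd]
      simp
    rw [ha (x + y), ha x, ha y, ← add_smul] at h1
    have h2 : (a (x + y) - (a x + a y)) • Ψ (1, 0) = 0 := by rw [sub_smul, h1, sub_self]
    exact sub_eq_zero.1 ((smul_eq_zero.1 h2).resolve_right hu0)
  -- a fifth line of the spread has rank one
  apply R3 (e.symm (1, θ + 1)) (e.symm (θ, (θ + 1) * θ)) (hnz _ (by simp)) ?_ ?_ (a θ)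
  · show Ψ (θ, (θ + 1) * θ) = a θ • Ψ (1, θ + 1)
    rw [hxy θ ((θ + 1) * θ), hxy 1 (θ + 1), ha1, ← hab, ← hab, add_mul, one_mul, haadd, hmul, haadd,
      ha1, smul_add, smul_smul, smul_smul, mul_one, mul_add, mul_one]
  · intro c hc
    rw [← map_smul, e.symm.injective.eq_iff] at hc
    have h1 := congrArg Prod.fst hc
    rw [Prod.smul_fst, Algebra.smul_def] at h1
    exact hθ c (by simpa using h1.symm)
  · rintro A (rfl | rfl | rfl | rfl) h1 h2
    · rw [mem_lineInf] at h1
      simp at h1
    · rw [mem_line] at h1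
      simp [hθ2] at h1
    · rw [mem_line] at h1
      simp [hθ0] at h1
    · rw [mem_line] at h1
      simp at h1

end spread

/-- **Representability of `P(M)` does not imply representability of `M`.** For every finite field
`F` there is a q-matroid on `F ^ 4` whose projectivization matroid is representable over every
finite extension field of `F` of degree at least four, but which is not representable over any
extension field of `F`. -/
theorem result (F : Type) [Field F] [Finite F] :
    ∃ M : QMatroid F (Fin 4 → F),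
      (∀ (K : Type) [Field K] [Algebra F K] [FiniteDimensional F K],
        4 ≤ finrank F K → M.ProjRepresentable K) ∧
      ∀ (K : Type) [Field K] [Algebra F K], ¬ M.Representable K := by
  classical
  obtain ⟨p, hp⟩ := CharP.exists F
  have : Fact p.Prime := ⟨(CharP.char_is_prime_or_zero F p).resolve_right
    (CharP.char_ne_zero_of_finite F p)⟩
  let L := FiniteField.Extension F p 2
  have hL : finrank F L = 2 := FiniteField.finrank_extension F p 2
  have hLF : FiniteDimensional F L := inferInstance
  have e : (Fin 4 → F) ≃ₗ[F] L × L := LinearEquiv.ofFinrankEq _ _ (by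
    rw [finrank_fintype_fun_eq_card, Fintype.card_fin, Module.finrank_prod, hL])
  obtain ⟨θ, hθ⟩ : ∃ θ : L, ∀ c : F, algebraMap F L c ≠ θ := by
    by_contra hcon
    push Not at hcon
    have h1 : Function.Surjective (Algebra.linearMap F L) := fun x => hcon x
    have h2 := LinearMap.finrank_le_finrank_of_surjective h1
    rw [hL, finrank_self] at h2
    omega
  refine ⟨spreadMatroid (four e θ) (four_disj e θ), fun K _ _ _ hK => ?_, fun K _ _ =>
    four_not_rep e θ hθ K⟩
  have hdis := four_disj e θ
  have hbot : ∀ a : Projectivization F (Fin 4 → F), a.submodule ≠ ⊥ := fun a h => by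
    have := Projectivization.finrank_submodule a
    rw [h, finrank_bot] at this
    omega
  let r : Setoid (Projectivization F (Fin 4 → F)) :=
    { r := fun a b => a = b ∨ ∃ A ∈ four e θ, a.submodule ≤ A ∧ b.submodule ≤ A
      iseqv :=
        { refl := fun a => Or.inl rfl
          symm := by
            rintro a b (h | ⟨A, hA, h1, h2⟩)
            · exact Or.inl h.symm
            · exact Or.inr ⟨A, hA, h2, h1⟩
          trans := by
            rintro a b c (rfl | ⟨A, hA, h1, h2⟩) (rfl | ⟨B, hB, h3, h4⟩)
            · exact Or.inl rfl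
            · exact Or.inr ⟨B, hB, h3, h4⟩
            · exact Or.inr ⟨A, hA, h1, h2⟩
            · have h5 : A = B := hdis A hA B hB fun h => hbot b (le_bot_iff.1 (h ▸ le_inf h2 h3))
              exact Or.inr ⟨A, hA, h1, h5 ▸ h4⟩ } }
  have : Finite K := Module.finite_of_finite F
  have := Fintype.ofFinite K
  have := Fintype.ofFinite F
  have : Finite (Projectivization F (Fin 4 → F)) :=
    Finite.of_injective (fun a => a.rep) (fun a b h => by
      rw [← a.mk_rep, ← b.mk_rep]
      congr 1)
  have : Finite (Quotient r) := inferInstance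
  have := Fintype.ofFinite (Quotient r)
  obtain ⟨g⟩ : Nonempty (Quotient r ↪ K) := by
    apply Function.Embedding.nonempty_of_card_le
    have h1 : Fintype.card (Quotient r) ≤ Fintype.card (Fin 4 → F) := by
      apply Fintype.card_le_of_injective (fun a => (Quotient.out a).rep)
      intro a b h
      have h2 : Quotient.out a = Quotient.out b := by
        rw [← (Quotient.out a).mk_rep, ← (Quotient.out b).mk_rep]
        congr 1
      rw [← Quotient.out_eq a, ← Quotient.out_eq b, h2]
    refine h1.trans ?_
    rw [Fintype.card_fun, Fintype.card_fin, Module.card_eq_pow_finrank (K := F) (V := K)]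
    exact Nat.pow_le_pow_right Fintype.card_pos hK
  refine spread_proj _ _ K (fun a => g (Quotient.mk r a)) fun a b => ?_
  rw [g.injective.eq_iff]
  exact Quotient.eq

end Pool.Agent.Results.MP_4d2e3d_co.SpreadCounterexample
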